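import Mathlib
import Pool.Agent.Lib.helper26.Dens

set_option autoImplicit false

namespace Pool.Agent.Results.MP_697cf1_co.ShiftFalse

open Pool.Agent.Lib.H26Dens

/-- Q1 fails: for some m > l ≥ 1 (namely m = 2, l = 1, k = m / l) there is a set A of positive
integers of upper density above (k+1)/(k+2) containing no shift of mB + lB with B infinite. -/
theorem result : ∃ m l : ℕ, 1 ≤ l ∧ l < m ∧ ∃ A : Set ℕ, 0 ∉ A ∧
    ((m : ℝ) / l + 1) / ((m : ℝ) / l + 2) < upperDensity A ∧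
    ∀ B : Set ℕ, B.Infinite → ∀ t : ℕ,
      ¬ (∀ b1 ∈ B, ∀ b2 ∈ B, m * b1 + l * b2 + t ∈ A) := by
  refine ⟨2, 1, le_rfl, by norm_num, {x | x ≠ 0 ∧ x ∉ S}, by simp, ?_, ?_⟩
  · refine lt_of_lt_of_le ?_ dens_S
    norm_num
  · intro B hB t h
    obtain ⟨b1, h1, b2, h2, h3⟩ := hit B hB t
    have := (h b1 h1 b2 h2).2
    rw [one_mul] at this
    exact this h3

end Pool.Agent.Results.MP_697cf1_co.ShiftFalse
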